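import Pool.Agent.Lib_helper82.T12.Law
import Pool.Agent.Lib_helper82.T12.B
import Pool.Agent.Lib_helper41.TK.W.AG
import Pool.Agent.Lib_helper71.LSP3.AS5

/-!
# T12: the inputs of the laws from the smooth twists
-/

set_option autoImplicit false

namespace Pool.Agent.T12

open MeasureTheory ProbabilityTheory
open Pool.Agent.LK (PQ)
open Pool.Agent.LEV (S2 IsNew co Lh HE la)
open Pool.Agent.LX (Ex Yy Aa dl)
open Pool.Agent.LE (xv)
open Pool.Agent.LSP (MX)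

/-- the smooth twists -/
noncomputable def uu {q : ℕ} [NeZero q] (χ : DirichletCharacter ℂ q) (i : ℕ) {N : ℕ}
    (f : S2 N) : ℝ := MX (Aa q N) (xv χ i (Yy q N) (Aa q N)) (la f)

/-- I : the product is small -/
def PartOne : Prop := ∃ κ : ℝ, 0 < κ ∧ ∀ ε δ : ℝ, 0 < ε → 0 < δ → ∃ N₀ : ℕ, ∀ (N : ℕ)
    [Fact N.Prime], N₀ ≤ N → ∀ (q : ℕ) [NeZero q] (χ : DirichletCharacter ℂ q) (β : ℝ),
    Ex κ N χ β → χ (-(N : ZMod q)) = 1 →
    ({f : S2 N | (IsNew f ∧ co f N = 1) ∧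
      (1 - β) * Real.log N ^ δ < ‖Lh f‖ * |uu χ 0 f|}.ncard : ℝ) ≤ ε * N

/-- IV, `χ(-N) = -1` -/
def FourM : Prop := ∀ ε : ℝ, 0 < ε → ∃ κ : ℝ, 0 < κ ∧ ∀ δ : ℝ, 0 < δ → ∃ N₀ : ℕ, ∀ (N : ℕ)
    [Fact N.Prime], N₀ ≤ N → ∀ (q : ℕ) [NeZero q] (χ : DirichletCharacter ℂ q) (β : ℝ),
    Ex κ N χ β → χ (-(N : ZMod q)) = -1 →
    (1 - ε) * (N / 24) ≤ ({f : S2 N | (IsNew f ∧ co f N = 1) ∧
      Real.log N ^ (-δ) ≤ ‖Lh f‖ * |uu χ 1 f|}.ncard : ℝ)

/-- IV, `χ(-N) = 1` -/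
def FourP : Prop := ∀ ε : ℝ, 0 < ε → ∃ κ : ℝ, 0 < κ ∧ ∀ δ : ℝ, 0 < δ → ∃ N₀ : ℕ, ∀ (N : ℕ)
    [Fact N.Prime], N₀ ≤ N → ∀ (q : ℕ) [NeZero q] (χ : DirichletCharacter ℂ q) (β : ℝ),
    Ex κ N χ β → χ (-(N : ZMod q)) = 1 →
    (3 / 5 - ε) * (N / 24) ≤ ({f : S2 N | (IsNew f ∧ co f N = 1) ∧ Real.log N ^ (-δ) ≤
      ‖Lh f‖ * (|uu χ 2 f| / Real.log N + |uu χ 0 f| / (1 - β))}.ncard : ℝ)

/-- III : upper bounds for nearly all forms -/
def Three : Prop := ∀ (i : ℕ) (ε δ : ℝ), 0 < ε → 0 < δ → ∃ N₀ : ℕ, ∀ (N : ℕ)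
    [Fact N.Prime], N₀ ≤ N → ∀ (q : ℕ) [NeZero q] (χ : DirichletCharacter ℂ q), PQ χ →
    (q : ℝ) ≤ (N : ℝ) ^ dl →
    ((χ (-(N : ZMod q)) = 1 ∧ (i = 0 ∨ i = 2)) ∨ (χ (-(N : ZMod q)) = -1 ∧ i = 1)) →
    ({f : S2 N | (IsNew f ∧ co f N = 1) ∧
      Real.log N ^ ((i : ℝ) - 1 / 2 + δ) < |uu χ i f|}.ncard : ℝ) ≤ ε * N

theorem ex_iff {κ : ℝ} {N : ℕ} {q : ℕ} [NeZero q] (χ : DirichletCharacter ℂ q) (β : ℝ) :
    Ex κ N χ β ↔ XZ κ N χ β := by
  constructor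
  · intro h
    exact ⟨⟨h.pq, h.lt1, h.zero⟩, h.q_le, h.lt⟩
  · intro h
    exact ⟨h.rz.pq, h.hq, h.hβ, h.rz.lt, h.rz.zero⟩

theorem xz_mono {κ κ' : ℝ} (h : κ ≤ κ') {N : ℕ} (hN : 3 ≤ N) {q : ℕ} [NeZero q]
    {χ : DirichletCharacter ℂ q} {β : ℝ} (hx : XZ κ N χ β) : XZ κ' N χ β := by
  have h5 : (3 : ℝ) ≤ N := by exact_mod_cast hN
  have h6 : 0 < Real.log N := Real.log_pos (by linarith)
  refine ⟨hx.rz, hx.hq.trans (Real.rpow_le_rpow_of_exponent_le (by linarith) h),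
    lt_of_le_of_lt ?_ hx.hβ⟩
  have h7 : κ / Real.log N ≤ κ' / Real.log N :=
    div_le_div_of_nonneg_right h h6.le
  linarith

/-- removing a small exceptional set -/
theorem nc_diff {N : ℕ} [Fact N.Prime] {P Q R : S2 N → Prop} {a b : ℝ}
    (h1 : a ≤ ({f : S2 N | (IsNew f ∧ co f N = 1) ∧ P f}.ncard : ℝ))
    (h2 : ({f : S2 N | (IsNew f ∧ co f N = 1) ∧ Q f}.ncard : ℝ) ≤ b)
    (h : ∀ f : S2 N, IsNew f → co f N = 1 → P f → ¬ Q f → R f) :
    a - b ≤ ({f : S2 N | (IsNew f ∧ co f N = 1) ∧ R f}.ncard : ℝ) := by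
  rw [sh_set] at h1 h2
  rw [sh_set]
  have h3 : {f : S2 N | f ∈ HE N ∧ P f} ⊆
      {f : S2 N | f ∈ HE N ∧ R f} ∪ {f : S2 N | f ∈ HE N ∧ Q f} := by
    rintro f ⟨h4, h5⟩
    by_cases h6 : Q f
    · exact Or.inr ⟨h4, h6⟩
    · refine Or.inl ⟨h4, ?_⟩
      rw [LEV.HE_eq] at h4
      exact h f h4.1 h4.2 h5 h6
  have h4 : {f : S2 N | f ∈ HE N ∧ P f}.ncard ≤
      {f : S2 N | f ∈ HE N ∧ R f}.ncard + {f : S2 N | f ∈ HE N ∧ Q f}.ncard :=
    le_trans (Set.ncard_le_ncard h3 (((LEV.HE_fin N).subset fun f hf => hf.1).union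
      ((LEV.HE_fin N).subset fun f hf => hf.1))) (Set.ncard_union_le _ _)
  have h5 : ({f : S2 N | f ∈ HE N ∧ P f}.ncard : ℝ) ≤
      ({f : S2 N | f ∈ HE N ∧ R f}.ncard : ℝ) + ({f : S2 N | f ∈ HE N ∧ Q f}.ncard : ℝ) := by
    exact_mod_cast h4
  linarith

/-- an upper bound from two -/
theorem nc_up {N : ℕ} [Fact N.Prime] {P Q R : S2 N → Prop} {a b : ℝ}
    (h1 : ({f : S2 N | (IsNew f ∧ co f N = 1) ∧ P f}.ncard : ℝ) ≤ a)
    (h2 : ({f : S2 N | (IsNew f ∧ co f N = 1) ∧ Q f}.ncard : ℝ) ≤ b)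
    (h : ∀ f : S2 N, IsNew f → co f N = 1 → R f → ¬ Q f → P f) :
    ({f : S2 N | (IsNew f ∧ co f N = 1) ∧ R f}.ncard : ℝ) ≤ a + b := by
  have h3 := nc_diff (a := ({f : S2 N | (IsNew f ∧ co f N = 1) ∧ R f}.ncard : ℝ)) le_rfl h2 h
  linarith

/-- powers of `log N` absorb constants -/
theorem log_abs (C : ℝ) {δ : ℝ} (hδ : 0 < δ) : ∃ N₀ : ℕ, ∀ N : ℕ, N₀ ≤ N →
    C ≤ Real.log N ^ δ := by
  have h2 : Filter.Tendsto (fun N : ℕ => Real.log (N : ℝ) ^ δ) Filter.atTop Filter.atTop :=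
    (tendsto_rpow_atTop hδ).comp (Real.tendsto_log_atTop.comp tendsto_natCast_atTop_atTop)
  exact Filter.eventually_atTop.mp (h2.eventually_ge_atTop C)

/-- the central values are at most `1` for nearly all forms -/
theorem lh_one {ε : ℝ} (hε : 0 < ε) : ∃ N₀ : ℕ, ∀ (N : ℕ) [Fact N.Prime], N₀ ≤ N →
    ({f : S2 N | (IsNew f ∧ co f N = 1) ∧ 1 < ‖Lh f‖}.ncard : ℝ) ≤ ε * N := by
  obtain ⟨e, he0, he1, he2⟩ : ∃ e : ℝ, 0 < e ∧ e ≤ ε ∧ e ≤ 1 := ⟨min ε 1, by positivity,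
    min_le_left _ _, min_le_right _ _⟩
  obtain ⟨N₁, h1⟩ := LEV.fin_small (A := 0) (by norm_num) he0
  obtain ⟨N₂, h2⟩ := LEV.even_up (show (0 : ℝ) < 1 / 24 by norm_num)
  refine ⟨N₁ + N₂ + 3, fun N _ hN => ?_⟩
  have h3 := h1 N (by omega)
  have h4 := h2 N (by omega)
  have h5 : ({f : S2 N | (IsNew f ∧ co f N = 1) ∧ 1 < ‖Lh f‖}.ncard : ℝ) ≤
      ({f : S2 N | f ∈ HE N ∧ Real.log N ^ (-(0 : ℝ)) < (Lh f).re}.ncard : ℝ) := by
    rw [sh_set]
    norm_cast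
    apply Set.ncard_le_ncard _ ((LEV.HE_fin N).subset fun f hf => hf.1)
    rintro f ⟨h6, h7⟩
    refine ⟨h6, ?_⟩
    rw [lh_norm (by omega) h6] at h7
    simpa using h7
  have hN0 : (0 : ℝ) ≤ N := Nat.cast_nonneg _
  have h6 : (0 : ℝ) ≤ ((HE N).ncard : ℝ) := Nat.cast_nonneg _
  calc _ ≤ _ := h5
    _ ≤ e * ((HE N).ncard : ℝ) := h3
    _ ≤ e * ((1 / 24 + 1 / 24) * N) := mul_le_mul_of_nonneg_left h4 he0.le
    _ ≤ ε * N := by nlinarith

/-- the zero is not too close to `1` -/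
theorem beta_low : ∃ c : ℝ, 0 < c ∧ ∀ (N : ℕ) (q : ℕ) [NeZero q] (χ : DirichletCharacter ℂ q)
    (β : ℝ), 3 ≤ N → XZ (1 / 2) N χ β → c / (N : ℝ) ^ (1 / 2 : ℝ) ≤ 1 - β := by
  obtain ⟨c, hc, h⟩ := P0_pr
  refine ⟨c, hc, fun N q _ χ β hN hx => le_trans ?_ (h q χ β hx.rz)⟩
  have hq0 : (0 : ℝ) < q := by exact_mod_cast Nat.pos_of_ne_zero (NeZero.ne q)
  exact div_le_div_of_nonneg_left hc.le hq0 hx.hq

theorem sp_of (h : PartOne) : SP := by
  intro ε hε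
  obtain ⟨κ, hκ, h⟩ := h
  obtain ⟨c, hc, hc1⟩ := beta_low
  obtain ⟨N₁, h1⟩ := TK.bx_u0
  obtain ⟨N₂, h2⟩ := lh_one (half_pos hε)
  refine ⟨min κ (min dl (1 / 2)), lt_min hκ (lt_min LX.dl_pos (by norm_num)), fun δ hδ => ?_⟩
  obtain ⟨N₃, h3⟩ := h (ε / 2) (δ / 2) (half_pos hε) (half_pos hδ)
  obtain ⟨N₄, h4⟩ := log_abs 3 (half_pos hδ)
  obtain ⟨N₅, h5⟩ := LX.as_grow (1 / c) 0 (a := 1 / 2) (by norm_num)
  refine ⟨N₁ + N₂ + N₃ + N₄ + N₅ + 3, fun N _ hN q _ χ β hx hs => ?_⟩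
  have hN3 : (3 : ℝ) ≤ N := by exact_mod_cast (by omega : 3 ≤ N)
  have hlog : 0 < Real.log N := Real.log_pos (by linarith)
  have hx1 : XZ κ N χ β := xz_mono (min_le_left _ _) (by omega) hx
  have hx2 : XZ dl N χ β := xz_mono ((min_le_right _ _).trans (min_le_left _ _)) (by omega) hx
  have hx3 : XZ (1 / 2) N χ β :=
    xz_mono ((min_le_right _ _).trans (min_le_right _ _)) (by omega) hx
  have hb := hc1 N q χ β (by omega) hx3
  have h6 := h3 N (by omega) q χ β ((ex_iff χ β).2 hx1) hs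
  have h7 := h2 N (by omega)
  have h8 := h4 N (by omega)
  have h9 := h5 N (by omega)
  have hb0 : 0 < 1 - β := by have := hx.rz.lt; linarith
  have h10 : (1 : ℝ) / N ≤ 1 - β := by
    refine le_trans ?_ hb
    have hN0 : (0 : ℝ) < N := by linarith
    have h11 : (N : ℝ) ^ (1 / 2 : ℝ) * (N : ℝ) ^ (1 / 2 : ℝ) = N := by
      rw [← Real.rpow_add hN0]
      norm_num
    have h12 : 0 < (N : ℝ) ^ (1 / 2 : ℝ) := Real.rpow_pos_of_pos hN0 _
    have h13 : 1 / c ≤ (N : ℝ) ^ (1 / 2 : ℝ) := by simpa using h9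
    rw [div_le_iff₀ hc] at h13
    rw [div_le_div_iff₀ hN0 h12]
    nlinarith
  have h11 := nc_up (R := fun f => (1 - β) * Real.log N ^ δ < ‖Lh f‖ * |TK.bx χ f|) h6 h7
    (fun f hf1 hf2 h12 h13 => by
      push Not at h13
      have h14 := h1 N (by omega) q χ hx.rz.pq hx2.hq f hf1
      have h15 : |TK.bx χ f| ≤ 2 * |uu χ 0 f| + 1 / N := by
        have h16 : TK.bx χ f = (TK.bx χ f - 2 * uu χ 0 f) + 2 * uu χ 0 f := by ring
        rw [h16]
        refine (abs_add_le _ _).trans ?_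
        rw [abs_mul, abs_of_pos (two_pos : (0 : ℝ) < 2), add_comm]
        exact add_le_add_right h14 _
      have h16 : ‖Lh f‖ * |TK.bx χ f| ≤ 2 * (‖Lh f‖ * |uu χ 0 f|) + (1 - β) := by
        calc ‖Lh f‖ * |TK.bx χ f| ≤ ‖Lh f‖ * (2 * |uu χ 0 f| + 1 / N) :=
              mul_le_mul_of_nonneg_left h15 (norm_nonneg _)
          _ = 2 * (‖Lh f‖ * |uu χ 0 f|) + ‖Lh f‖ * (1 / N) := by ring
          _ ≤ 2 * (‖Lh f‖ * |uu χ 0 f|) + 1 * (1 - β) := by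
              have h17 : ‖Lh f‖ * (1 / N) ≤ 1 * (1 - β) :=
                mul_le_mul h13 h10 (by positivity) zero_le_one
              linarith
          _ = _ := by ring
      have h17 : Real.log N ^ δ = Real.log N ^ (δ / 2) * Real.log N ^ (δ / 2) := by
        rw [← Real.rpow_add hlog]
        congr 1
        ring
      rw [h17] at h12
      have h18 : (1 - β) * 3 * Real.log N ^ (δ / 2) ≤
          (1 - β) * (Real.log N ^ (δ / 2) * Real.log N ^ (δ / 2)) := by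
        rw [mul_assoc]
        apply mul_le_mul_of_nonneg_left _ hb0.le
        exact mul_le_mul_of_nonneg_right h8 (by positivity)
      have h19 : (1 - β) ≤ (1 - β) * Real.log N ^ (δ / 2) := by
        nlinarith
      show (1 - β) * Real.log N ^ (δ / 2) < ‖Lh f‖ * |uu χ 0 f|
      linarith)
  have h12 : ε / 2 * (N : ℝ) + ε / 2 * N = ε * N := by ring
  linarith

theorem mn_of (h : FourM) (h3 : Three) : MN := by
  intro ε hε
  obtain ⟨κ, hκ, h⟩ := h (ε / 2) (half_pos hε)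
  refine ⟨min κ dl, lt_min hκ LX.dl_pos, fun A hA => ?_⟩
  have hd : 0 < (A - 1 / 2) / 4 := by linarith
  obtain ⟨N₁, h1⟩ := h ((A - 1 / 2) / 4) hd
  obtain ⟨N₂, h2⟩ := h3 1 (ε / 48) ((A - 1 / 2) / 4) (by positivity) hd
  obtain ⟨N₃, h4⟩ := log_abs 2 hd
  refine ⟨N₁ + N₂ + N₃ + 3, fun N _ hN q _ χ β hx hs => ?_⟩
  have hN3 : (3 : ℝ) ≤ N := by exact_mod_cast (by omega : 3 ≤ N)
  have hlog : 0 < Real.log N := Real.log_pos (by linarith)
  have hx1 : XZ κ N χ β := xz_mono (min_le_left _ _) (by omega) hx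
  have hx2 : XZ dl N χ β := xz_mono (min_le_right _ _) (by omega) hx
  have h5 := h1 N (by omega) q χ β ((ex_iff χ β).2 hx1) hs
  have h6 := h2 N (by omega) q χ hx.rz.pq hx2.hq (Or.inr ⟨hs, rfl⟩)
  have h7 := nc_diff (R := fun f => Real.log N ^ (-A) < ‖Lh f‖) h5 h6
    (fun f hf1 hf2 h8 h9 => by
      push Not at h9
      have h10 : Real.log N ^ (-((A - 1 / 2) / 4)) ≤
          ‖Lh f‖ * Real.log N ^ (((1 : ℕ) : ℝ) - 1 / 2 + (A - 1 / 2) / 4) :=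
        h8.trans (mul_le_mul_of_nonneg_left h9 (norm_nonneg _))
      by_contra h11
      push Not at h11
      have h12 : ‖Lh f‖ * Real.log N ^ (((1 : ℕ) : ℝ) - 1 / 2 + (A - 1 / 2) / 4) ≤
          Real.log N ^ (-A + (((1 : ℕ) : ℝ) - 1 / 2 + (A - 1 / 2) / 4)) := by
        rw [Real.rpow_add hlog (-A)]
        exact mul_le_mul_of_nonneg_right h11 (Real.rpow_nonneg hlog.le _)
      have h13 : Real.log N ^ (-((A - 1 / 2) / 4)) ≤
          Real.log N ^ (-A + (((1 : ℕ) : ℝ) - 1 / 2 + (A - 1 / 2) / 4)) := h10.trans h12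
      have h14 := h4 N (by omega)
      have h15 : Real.log N ^ (-((A - 1 / 2) / 4)) =
          Real.log N ^ (-A + (((1 : ℕ) : ℝ) - 1 / 2 + (A - 1 / 2) / 4)) *
            (Real.log N ^ ((A - 1 / 2) / 4) * Real.log N ^ ((A - 1 / 2) / 4)) := by
        rw [← Real.rpow_add hlog, ← Real.rpow_add hlog]
        congr 1
        push_cast
        ring
      have h16 : 0 < Real.log N ^ (-A + (((1 : ℕ) : ℝ) - 1 / 2 + (A - 1 / 2) / 4)) :=
        Real.rpow_pos_of_pos hlog _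
      rw [h15] at h13
      have h17 : (4 : ℝ) ≤ Real.log N ^ ((A - 1 / 2) / 4) * Real.log N ^ ((A - 1 / 2) / 4) := by
        nlinarith only [h14]
      have h18 := mul_le_mul_of_nonneg_left h17 h16.le
      linarith only [h13, h16, h18])
  have h8 : (1 - ε / 2) * ((N : ℝ) / 24) - ε / 48 * N = N / 24 * (1 - ε) := by ring
  linarith

theorem hp_of (h : FourP) (h3 : Three) : HP := by
  intro ε hε
  obtain ⟨κ, hκ, h⟩ := h (ε / 2) (half_pos hε)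
  refine ⟨min κ dl, lt_min hκ LX.dl_pos, fun A δ hA hδ => ?_⟩
  obtain ⟨d, hd, hd1, hd2⟩ : ∃ d : ℝ, 0 < d ∧ 4 * d ≤ A - 1 / 2 ∧ 4 * d ≤ δ :=
    ⟨min (A - 1 / 2) δ / 4, by have : 0 < min (A - 1 / 2) δ := lt_min (by linarith) hδ
                               linarith,
      by have := min_le_left (A - 1 / 2) δ; linarith,
      by have := min_le_right (A - 1 / 2) δ; linarith⟩
  obtain ⟨N₁, h1⟩ := h d hd
  obtain ⟨N₂, h2⟩ := h3 0 (ε / 96) d (by positivity) hd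
  obtain ⟨N₃, h4⟩ := h3 2 (ε / 96) d (by positivity) hd
  obtain ⟨N₄, h5⟩ := log_abs 3 hd
  refine ⟨N₁ + N₂ + N₃ + N₄ + 3, fun N _ hN q _ χ β hx hs hb => ?_⟩
  have hN3 : (3 : ℝ) ≤ N := by exact_mod_cast (by omega : 3 ≤ N)
  have hlog : 0 < Real.log N := Real.log_pos (by linarith)
  have hx1 : XZ κ N χ β := xz_mono (min_le_left _ _) (by omega) hx
  have hx2 : XZ dl N χ β := xz_mono (min_le_right _ _) (by omega) hx
  have h6 := h1 N (by omega) q χ β ((ex_iff χ β).2 hx1) hs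
  have h7 := h2 N (by omega) q χ hx.rz.pq hx2.hq (Or.inl ⟨hs, Or.inl rfl⟩)
  have h8 := h4 N (by omega) q χ hx.rz.pq hx2.hq (Or.inl ⟨hs, Or.inr rfl⟩)
  have h9 := h5 N (by omega)
  have hlog1 : 1 ≤ Real.log N := by
    rw [Real.le_log_iff_exp_le (by linarith)]
    have := Real.exp_one_lt_three
    linarith
  have hb0 : 0 < 1 - β := by have := hx.rz.lt; linarith
  have h10 := nc_diff (R := fun f => Real.log N ^ (-d) ≤
      ‖Lh f‖ * (|uu χ 2 f| / Real.log N + |uu χ 0 f| / (1 - β)) ∧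
      |uu χ 0 f| ≤ Real.log N ^ (((0 : ℕ) : ℝ) - 1 / 2 + d)) h6 h7
    (fun f _ _ h11 h12 => ⟨h11, not_lt.1 h12⟩)
  have h11 := nc_diff (R := fun f => Real.log N ^ (-A) < ‖Lh f‖) h10 h8
    (fun f hf1 hf2 h12 h13 => by
      obtain ⟨h12, h14⟩ := h12
      push Not at h13
      by_contra h15
      push Not at h15
      have h16 : |uu χ 2 f| / Real.log N ≤ Real.log N ^ (A - 3 * d) := by
        calc |uu χ 2 f| / Real.log N ≤
            Real.log N ^ (((2 : ℕ) : ℝ) - 1 / 2 + d) / Real.log N :=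
              div_le_div_of_nonneg_right h13 hlog.le
          _ = Real.log N ^ (((2 : ℕ) : ℝ) - 1 / 2 + d - 1) := by
              rw [Real.rpow_sub_one hlog.ne']
          _ ≤ Real.log N ^ (A - 3 * d) := by
              apply Real.rpow_le_rpow_of_exponent_le hlog1
              push_cast
              linarith
      have h17 : |uu χ 0 f| / (1 - β) ≤ Real.log N ^ (A - 3 * d) := by
        calc |uu χ 0 f| / (1 - β) ≤
            Real.log N ^ (((0 : ℕ) : ℝ) - 1 / 2 + d) / Real.log N ^ (-(A + 1 / 2) + δ) :=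
              div_le_div₀ (Real.rpow_nonneg hlog.le _) h14 (Real.rpow_pos_of_pos hlog _) hb
          _ = Real.log N ^ (((0 : ℕ) : ℝ) - 1 / 2 + d - (-(A + 1 / 2) + δ)) := by
              rw [← Real.rpow_sub hlog]
          _ ≤ Real.log N ^ (A - 3 * d) := by
              apply Real.rpow_le_rpow_of_exponent_le hlog1
              push_cast
              linarith
      have h18 : Real.log N ^ (-d) ≤ Real.log N ^ (-A) * (2 * Real.log N ^ (A - 3 * d)) := by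
        refine h12.trans (mul_le_mul h15 (by linarith) ?_ (Real.rpow_nonneg hlog.le _))
        positivity
      have h19 : Real.log N ^ (-A) * (2 * Real.log N ^ (A - 3 * d)) =
          2 * Real.log N ^ (-(3 * d)) := by
        rw [mul_left_comm, ← Real.rpow_add hlog]
        congr 2
        ring
      have h20 : Real.log N ^ (-d) =
          Real.log N ^ (-(3 * d)) * (Real.log N ^ d * Real.log N ^ d) := by
        rw [← Real.rpow_add hlog, ← Real.rpow_add hlog]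
        congr 1
        ring
      rw [h19, h20] at h18
      have h21 : 0 < Real.log N ^ (-(3 * d)) := Real.rpow_pos_of_pos hlog _
      have h22 : (9 : ℝ) ≤ Real.log N ^ d * Real.log N ^ d := by
        nlinarith only [h9]
      have h23 := mul_le_mul_of_nonneg_left h22 h21.le
      linarith only [h18, h21, h23])
  have h12 : (3 / 5 - ε / 2) * ((N : ℝ) / 24) - ε / 96 * N - ε / 96 * N =
    N / 24 * (3 / 5 - ε) := by ring
  linarith

end Pool.Agent.T12
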