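import Pool.Agent.Lib_helper68.KSL.Defs
import Pool.Agent.Lib_helper31.LK.DefsP

/-!
# Half of the twisted central values are large. Definitions.

`χ` is a primitive quadratic character mod `q` with `χ(-N) = 1`, `N` the (prime) level. The central
value of the twist is an integral of `f` over vertical half lines at the fractions with denominator
`q`; its mollified form is a combination of such integrals at the fractions with denominators
`q k d`, `k ∣ q^∞`, `(d, q) = 1`. The number theory takes place at the level `N q²`.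
-/

set_option autoImplicit false

namespace Pool.Agent.TK

open Pool.Agent.LEV Pool.Agent.LVB Pool.Agent.KSL
open Pool.Agent.LK (PQ)
open Pool.Agent.FG61 (mu phi cc ff AA Lam)
open Complex MeasureTheory Filter Topology UpperHalfPlane ModularGroup ProbabilityTheory
open scoped MatrixGroups Modular ENNReal ModularForm ComplexConjugate ContDiff

/-! ## Geometry with weights on the fractions -/

/-- the linear functional: a combination of integrals over vertical half lines -/
noncomputable def gl {N : ℕ} (f : S2 N) (Q : ℕ) (w : ℕ → ℕ → ℂ) : ℂ :=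
  ∑ c ∈ Finset.Icc 1 Q, ∑ j ∈ RR c, w c j * ∫ v in Set.Ioi (rq N c), ev f ((j : ℝ) / c) v

/-- the Fourier coefficients of the part with denominators larger than `D` -/
noncomputable def gT (Q : ℕ) (w : ℕ → ℕ → ℂ) (D : ℝ) (n : ℤ) : ℂ :=
  ∑ c ∈ (Finset.Icc 1 Q).filter (fun c : ℕ => D < c), ∑ j ∈ RR c,
    w c j * cexp (2 * Real.pi * Complex.I * n * (((j : ℝ) / c : ℝ) : ℂ))

/-- the kernel in the lower part of the Ford domain -/
noncomputable def gph (N Q : ℕ) (w : ℕ → ℕ → ℂ) (ρ : ℝ → ℝ) (x y : ℝ) : ℂ :=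
  ∑ c ∈ (Finset.Icc 1 Q).filter (fun c : ℕ => 2 * rq N c < y),
    ∑ j ∈ RR c, w c j * (((y⁻¹ * ρ ((x - (j : ℝ) / c) / y) : ℝ) : ℂ) *
      (1 - (((x - (j : ℝ) / c) / y : ℝ) : ℂ) * Complex.I))

/-- the contribution of the full strip -/
noncomputable def gHS (N Q : ℕ) (w : ℕ → ℕ → ℂ) (ρ : ℝ → ℝ) : ℝ :=
  ∑' n : ℕ, ‖gT Q w 0 n‖ ^ 2 * sgm ρ (n * (2 / Real.sqrt N)) ^ 2 / (Real.pi * n)

/-- the contribution of the lower part -/
noncomputable def gBS (N Q : ℕ) (w : ℕ → ℕ → ℂ) (ρ : ℝ → ℝ) : ℝ :=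
  ∫ y in Set.Ioo 0 (2 / Real.sqrt N), ∫ x : ℝ, ‖gph N Q w ρ x y‖ ^ 2

/-- the contribution of the boundary -/
noncomputable def gE (Q : ℕ) (w : ℕ → ℕ → ℂ) : ℝ :=
  ∑ c ∈ Finset.Icc 1 Q, ∑ j ∈ RR c, ‖w c j‖ ^ 2

/-! ## The twisted weights -/

/-- the part of `m` composed of the primes dividing `q` -/
def qs (q m : ℕ) : ℕ := ∏ p ∈ m.primeFactors.filter (fun p => p ∣ q), p ^ m.factorization p

/-- the part of `m` coprime to `q` -/
def qr (q m : ℕ) : ℕ := ∏ p ∈ m.primeFactors.filter (fun p => ¬ p ∣ q), p ^ m.factorization p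

/-- the numbers up to `X` all of whose prime factors divide `q` -/
def QI (q X : ℕ) : Finset ℕ := (Finset.Icc 1 X).filter (fun k => k.primeFactors ⊆ q.primeFactors)

section
variable {q : ℕ} [NeZero q]

/-- the weights of the fractions `j / (q k d)`, for given real weights `v k d` -/
noncomputable def tw (χ : DirichletCharacter ℂ q) (v : ℕ → ℕ → ℝ) (c j : ℕ) : ℂ :=
  if q ∣ c then (v (qs q (c / q)) (qr q (c / q)) : ℂ) * χ (qr q (c / q) : ℕ) * χ j /
    gaussSum χ ZMod.stdAddChar else 0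

/-- the central value of the twist, for `χ(-N) = 1` and even `f` -/
noncomputable def bx {N : ℕ} (χ : DirichletCharacter ℂ q) (f : S2 N) : ℝ :=
  2 * ∑' n : ℕ, (χ n).re * (co f n).re / n * Real.exp (-(2 * Real.pi * n / (q * Real.sqrt N)))

/-- the twisted coefficients -/
noncomputable def lx {N : ℕ} (χ : DirichletCharacter ℂ q) (f : S2 N) (n : ℕ) : ℝ :=
  (χ n).re * la f n

end

/-! ## The mollifier -/

/-- the weights of the fractions with rough denominators -/
noncomputable def wC (q z M K r : ℕ) : ℝ :=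
  ∑ m ∈ (Finset.Icc 1 (K * M)).filter (fun m => (r * m).Coprime q), yE z M K (r * m)

/-- the weights of all fractions -/
noncomputable def wAC (q z M K A : ℕ) (a : ℕ → ℝ) (d : ℕ) : ℝ :=
  al A a (smp z d) * wC q z M K (rop z d)

/-- the weights at the level `n` -/
noncomputable def wwC (q : ℕ) (δ ε : ℝ) (n : ℕ) (a : ℕ → ℝ) (d : ℕ) : ℝ :=
  wAC q (zz n) (MM δ n) 2 (KA ε n) a d

/-- the weights `v k d` of the mollified twist, `a k` being the short factor of the index `k` -/
noncomputable def vv (q : ℕ) (δ ε : ℝ) (n X : ℕ) (a : ℕ → ℕ → ℝ) (k d : ℕ) : ℝ :=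
  if k ∈ QI q X then (1 / Real.sqrt k) * wwC q δ ε n (a k) d else 0

/-- the rough factor of the mollifier -/
noncomputable def MrC (q z M K : ℕ) (x : ℕ → ℝ) : ℝ :=
  ∑ e ∈ (Finset.Icc 1 (K * M)).filter (fun e => e.Coprime q), (e : ℝ) * yE z M K e *
    ∏ p ∈ e.primeFactors, (x p / Real.sqrt p - 1 / p)

/-- conditions on the coefficients of the small factor -/
structure ShC (q z A : ℕ) (a : ℕ → ℝ) : Prop where
  sup : ∀ k, a k ≠ 0 → smooth z k ∧ k ≤ A ∧ k.Coprime q
  l1 : ∑ k ∈ Finset.Icc 1 A, |a k| ≤ A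

open Classical in
/-- the square of the norm of the small factor times the Euler product over small primes -/
noncomputable def cnC (q z A : ℕ) (a : ℕ → ℝ) : ℝ :=
  ∑' m : ℕ, if smooth z m ∧ m.Coprime q then Ph A a m ^ 2 / m else 0

open Classical in
/-- its distance from `s` -/
noncomputable def cdC (q z A : ℕ) (a s : ℕ → ℝ) : ℝ :=
  ∑' m : ℕ, if smooth z m ∧ m.Coprime q then (Ph A a m / Real.sqrt m - s m) ^ 2 else 0

/-- the projection of a short vector to the indices coprime to `q` -/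
noncomputable def pj (q A : ℕ) (a : ℕ → ℝ) (m : ℕ) : ℝ :=
  if m.Coprime q then ∑ k ∈ QI q A, a (k * m) / Real.sqrt k else 0

/-- the length of all denominators -/
noncomputable def QC (q : ℕ) (δ ε : ℝ) (n X : ℕ) : ℕ := q * (X * QQ δ ε n)

/-- the mollified twist as a Dirichlet polynomial, index `k` -/
noncomputable def FsC (q : ℕ) (δ ε : ℝ) (n : ℕ) (a : ℕ → ℝ) (x : ℕ → ℝ) : ℝ :=
  ∑ m ∈ (Finset.Icc 1 (X1 δ n)).filter (fun m => m.Coprime q),
    2 * Wt n (QQ δ ε n) (wwC q δ ε n a) m / Real.sqrt m * Um m x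

end Pool.Agent.TK
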