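import Pool.Agent.Lib_helper41.TK.Defs

/-! Half of the twisted central values are large. Further definitions. -/

set_option autoImplicit false

namespace Pool.Agent.TK

open Pool.Agent.LEV Pool.Agent.LVB Pool.Agent.KSL
open Pool.Agent.LK (PQ)
open Pool.Agent.FG61 (mu phi cc ff AA Lam)
open Complex MeasureTheory Filter Topology UpperHalfPlane ModularGroup ProbabilityTheory
open scoped MatrixGroups Modular ENNReal ModularForm ComplexConjugate ContDiff

/-- the contribution of the heights up to `2 k / √n`, for a decreasing function `g` -/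
noncomputable def hN (q : ℕ) (δ ε : ℝ) (n : ℕ) (a : ℕ → ℝ) (g : ℝ → ℝ) (y : ℝ) : ℝ :=
  ∑' m : ℕ, if (m + 1).Coprime q then g ((m + 1) * y) *
    TT (QQ δ ε n) (wwC q δ ε n a) (2 / (y * Real.sqrt n)) (m + 1) ^ 2 else 0

section
variable {q : ℕ} [NeZero q]

/-- the mollified twist as a Dirichlet polynomial -/
noncomputable def FX (χ : DirichletCharacter ℂ q) (δ ε : ℝ) (n X : ℕ) (a : ℕ → ℕ → ℝ)
    (x : ℕ → ℝ) : ℝ :=
  ∑ k ∈ QI q X, Um k x * FsC q δ ε n (a k) (fun p => (χ p).re * x p)

/-- the short polynomial of the index `k` -/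
noncomputable def sX (χ : DirichletCharacter ℂ q) (s : ℕ → ℝ) (k m : ℕ) : ℝ :=
  if m.Coprime q then (χ m).re * s (k * m) else 0

/-- the short factor of the mollifier -/
noncomputable def AX (χ : DirichletCharacter ℂ q) (A X : ℕ) (a : ℕ → ℕ → ℝ) (x : ℕ → ℝ) : ℝ :=
  ∑ k ∈ QI q X, Um k x * ∑ m ∈ Finset.Icc 1 A, a k m * Um m (fun p => (χ p).re * x p)

end

end Pool.Agent.TK
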